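import Pool.Agent.helper70.TB.Assembly
import Pool.Agent.helper70.TB.Final

/-!
# A collision-free periodic solution in the homology class (1, 0, -1) (MP_c8123f_an, Q1)

For the masses `3/50, 1/10, 1/10` the planar Newtonian three-body problem has a collision-free
periodic solution of period `30` with homology class `(k12, k23, k31) = (1, 0, -1)`.
The proof is computer assisted; all computations are done by the kernel.
-/

set_option autoImplicit false

namespace Pool.Agent.Results.MP_c8123f_an.ClassOneZeroMinusOne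

open Complex Set

/-- `x = (x 0, x 1, x 2)` is a solution of the planar three-body problem (the plane is `ℂ`) with
masses `m 0, m 1, m 2`, defined for all times: `x i` is differentiable with derivative `v i`, which
is differentiable with derivative `w i`, and
`m i * w i t = ∑ j ≠ i, m i * m j * (x j t - x i t) / |x j t - x i t| ^ 3`,
which is the gradient with respect to `x i` of `U = ∑_{i < j} m i * m j / |x i - x j|`. -/
def IsNewtonSolution (m : Fin 3 → ℝ) (x : Fin 3 → ℝ → ℂ) : Prop :=
  ∃ v w : Fin 3 → ℝ → ℂ, ∀ i t, HasDerivAt (x i) (v i t) t ∧ HasDerivAt (v i) (w i t) t ∧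
    (m i : ℂ) * w i t = ∑ j ∈ Finset.univ.erase i,
      (m i : ℂ) * (m j : ℂ) * (x j t - x i t) / (‖x j t - x i t‖ : ℂ) ^ 3

/-- `k` is the winding number about `0` of the curve `z : [0, T] → ℂ ∖ {0}`: for some continuous
choice `θ` of the argument of `z` on `[0, T]` one has `θ T - θ 0 = 2 π k`. -/
def HasWindingNumber (T : ℝ) (z : ℝ → ℂ) (k : ℤ) : Prop :=
  ∃ θ : ℝ → ℝ, ContinuousOn θ (Icc 0 T) ∧
    (∀ t ∈ Icc (0 : ℝ) T, z t ≠ 0 ∧ z t = (‖z t‖ : ℂ) * exp ((θ t : ℂ) * I)) ∧
    θ T - θ 0 = 2 * Real.pi * k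

/-- For some positive masses the planar three-body problem has a collision-free `T`-periodic
solution, with centre of mass at the origin, whose homology class
`(k12, k23, k31) = (deg (x₁ - x₂), deg (x₂ - x₃), deg (x₃ - x₁))` is `(1, 0, -1)`
(the bodies are numbered `0, 1, 2` here). -/
theorem result :
    ∃ (m : Fin 3 → ℝ) (T : ℝ) (x : Fin 3 → ℝ → ℂ),
      (∀ i, 0 < m i) ∧ 0 < T ∧
      (∀ t, ∑ i, (m i : ℂ) * x i t = 0) ∧
      IsNewtonSolution m x ∧
      (∀ i j, i ≠ j → ∀ t, x i t ≠ x j t) ∧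
      (∀ i t, x i (t + T) = x i t) ∧
      HasWindingNumber T (fun t => x 0 t - x 1 t) 1 ∧
      HasWindingNumber T (fun t => x 1 t - x 2 t) 0 ∧
      HasWindingNumber T (fun t => x 2 t - x 0 t) (-1) := by
  obtain ⟨a, b, u, v, hq⟩ := H70TB.exists_quarter
  obtain ⟨m, T, x, h1, h2, h3, ⟨v', h4⟩, h5, h6, h7, h8, h9⟩ := H70TB.assembly hq
  refine ⟨m, T, x, h1, h2, h3, ?_, h5, h6, h7, h8, h9⟩
  choose h41 w h42 h43 using h4
  exact ⟨v', w, fun i t => ⟨h41 i t, h42 i t, h43 i t⟩⟩

end Pool.Agent.Results.MP_c8123f_an.ClassOneZeroMinusOne
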